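import Pool.Agent.W811.Dos.Stm
import Pool.Agent.H695R3.ST.Bloch

/-!
Few zeros of the trace polynomial near a point.
-/

set_option autoImplicit false

namespace Pool.Agent.W335.Dos

open Polynomial Finset
open Pool.Agent.H695R3.ST
open scoped ComplexConjugate

/-- Bloch eigenfunction with twist `I` at a zero of the trace polynomial. -/
structure Bl (V : ℤ → ℝ) (q : ℕ) (x : ℝ) (u : ℕ → ℂ) : Prop where
  ne : u 0 ≠ 0 ∨ u 1 ≠ 0
  rc : ∀ k : ℕ, u (k + 2) = ((x : ℂ) - (V (1 + k) : ℂ)) * u (k + 1) - u k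
  e0 : u q = Complex.I * u 0
  e1 : u (q + 1) = Complex.I * u 1

theorem exists_bl (V : ℤ → ℝ) (q : ℕ) (x : ℝ) (hx : (D V 1 q).eval x = 0) :
    ∃ u : ℕ → ℂ, Bl V q x u := by
  have h0 : aeval (x : ℂ) (D V 1 q) = 0 := by
    have h1 : aeval (algebraMap ℝ ℂ x) (D V 1 q) = 0 := by
      rw [aeval_algebraMap_apply, coe_aeval_eq_eval, hx, map_zero]
    exact h1
  obtain ⟨u, h1, h2, h3, h4⟩ := exists_bloch V 1 q (x : ℂ) Complex.I (by rw [h0]; simp)
  exact ⟨u, h1, h2, h3, h4⟩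

theorem bl_orth {V : ℤ → ℝ} {q : ℕ} {x y : ℝ} {u v : ℕ → ℂ} (hu : Bl V q x u) (hv : Bl V q y v)
    (hxy : x ≠ y) : ∑ i ∈ range q, conj (u (i + 1)) * v (i + 1) = 0 := by
  have key : ∀ n : ℕ, ((y : ℂ) - x) * ∑ i ∈ range n, conj (u (i + 1)) * v (i + 1) =
      (conj (u n) * v (n + 1) - conj (u (n + 1)) * v n) -
        (conj (u 0) * v 1 - conj (u 1) * v 0) := by
    intro n
    induction n with
    | zero => simp
    | succ n ih =>
      rw [sum_range_succ, mul_add, ih, hv.rc n, hu.rc n]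
      simp only [map_sub, map_mul, Complex.conj_ofReal]
      ring
  have h := key q
  rw [hu.e0, hu.e1, hv.e0, hv.e1] at h
  simp only [map_mul, Complex.conj_I] at h
  have h2 : ((y : ℂ) - x) * ∑ i ∈ range q, conj (u (i + 1)) * v (i + 1) = 0 := by
    rw [h]
    linear_combination (conj (u 1) * v 0 - conj (u 0) * v 1) * Complex.I_sq
  refine (mul_eq_zero.mp h2).resolve_left ?_
  intro h3
  exact hxy (by exact_mod_cast (sub_eq_zero.mp h3).symm)

theorem bl_pos {V : ℤ → ℝ} {q : ℕ} (hq : 1 ≤ q) {x : ℝ} {u : ℕ → ℂ} (hu : Bl V q x u) :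
    0 < ∑ i ∈ range q, Complex.normSq (u (i + 1)) := by
  refine lt_of_le_of_ne (sum_nonneg fun i _ => Complex.normSq_nonneg _) fun h => ?_
  have h3 := (Finset.sum_eq_zero_iff_of_nonneg fun j _ => Complex.normSq_nonneg _).1 h.symm
  have h4 : u 1 = 0 := Complex.normSq_eq_zero.1 (h3 0 (Finset.mem_range.2 hq))
  have h5 : u q = 0 := by
    obtain ⟨r, rfl⟩ : ∃ r, q = r + 1 := ⟨q - 1, by omega⟩
    exact Complex.normSq_eq_zero.1 (h3 r (Finset.mem_range.2 (Nat.lt_succ_self r)))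
  have h6 : u 0 = 0 := by
    have := hu.e0
    rw [h5] at this
    exact (mul_eq_zero.1 this.symm).resolve_left Complex.I_ne_zero
  rcases hu.ne with h | h
  · exact h h6
  · exact h h4

/-- Pythagoras. -/
theorem pyth {ι : Type*} [Fintype ι] (q : ℕ) (U : ι → ℕ → ℂ)
    (horth : ∀ x y, x ≠ y → ∑ i ∈ range q, conj (U x (i + 1)) * U y (i + 1) = 0) (a : ι → ℂ) :
    ∑ i ∈ range q, Complex.normSq (∑ x, a x * U x (i + 1)) =
      ∑ x, Complex.normSq (a x) * ∑ i ∈ range q, Complex.normSq (U x (i + 1)) := by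
  classical
  have h : ((∑ i ∈ range q, Complex.normSq (∑ x, a x * U x (i + 1)) : ℝ) : ℂ) =
      ((∑ x, Complex.normSq (a x) * ∑ i ∈ range q, Complex.normSq (U x (i + 1)) : ℝ) : ℂ) := by
    push_cast
    simp only [Complex.normSq_eq_conj_mul_self]
    calc ∑ i ∈ range q, conj (∑ x, a x * U x (i + 1)) * ∑ x, a x * U x (i + 1)
        = ∑ i ∈ range q, ∑ x, ∑ y, (conj (a x) * a y) * (conj (U x (i + 1)) * U y (i + 1)) := by
          refine sum_congr rfl fun i _ => ?_
          rw [map_sum, sum_mul_sum]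
          refine sum_congr rfl fun x _ => sum_congr rfl fun y _ => ?_
          rw [map_mul]; ring
      _ = ∑ x, ∑ y, (conj (a x) * a y) * ∑ i ∈ range q, conj (U x (i + 1)) * U y (i + 1) := by
          rw [sum_comm]
          refine sum_congr rfl fun x _ => ?_
          rw [sum_comm]
          refine sum_congr rfl fun y _ => ?_
          rw [mul_sum]
      _ = ∑ x, conj (a x) * a x * ∑ i ∈ range q, conj (U x (i + 1)) * U x (i + 1) := by
          refine sum_congr rfl fun x _ => ?_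
          rw [sum_eq_single x]
          · intro y _ hy
            rw [horth x y (Ne.symm hy), mul_zero]
          · intro h; exact absurd (mem_univ x) h
  exact_mod_cast h

/-- Propagation in blocks. -/
theorem block (V : ℤ → ℝ) (E B : ℝ) (hV : ∀ n, |V n| ≤ B) (q ℓ : ℕ) (w r : ℕ → ℂ)
    (hrec : ∀ k : ℕ, w (k + 2) = ((E : ℂ) - (V (1 + k) : ℂ)) * w (k + 1) - w k + r (k + 1))
    (c : ℕ) (h1 : w (c * ℓ + 1) = 0) (h2 : w (c * ℓ + 2) = 0) (t : ℕ) :
    (t < ℓ → c * ℓ + t < q → ‖w (c * ℓ + t + 1)‖ ≤ (|E| + |B| + 2) ^ t *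
      Real.sqrt (∑ i ∈ (range q).filter (fun i => i / ℓ = c), Complex.normSq (r (i + 1)))) := by
  set S := Real.sqrt (∑ i ∈ (range q).filter (fun i => i / ℓ = c), Complex.normSq (r (i + 1)))
    with hS
  set A := |E| + |B| + 2 with hA
  have hA2 : 2 ≤ A := by
    have := abs_nonneg E; have := abs_nonneg B; linarith
  have hS0 : 0 ≤ S := Real.sqrt_nonneg _
  induction t using Nat.strong_induction_on with
  | _ t ih =>
    intro ht hq
    match t, ih, ht, hq with
    | 0, _, _, _ => simp [h1, hS0]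
    | 1, _, _, _ =>
      rw [show c * ℓ + 1 + 1 = c * ℓ + 2 by ring, h2, norm_zero]
      positivity
    | t + 2, ih, ht, hq =>
      have i0 := ih t (by omega) (by omega) (by omega)
      have i1 := ih (t + 1) (by omega) (by omega) (by omega)
      have hr : ‖r (c * ℓ + t + 2)‖ ≤ S := by
        rw [hS]
        apply Real.le_sqrt_of_sq_le
        rw [← Complex.normSq_eq_norm_sq]
        have hmem : c * ℓ + t + 1 ∈ (range q).filter (fun i => i / ℓ = c) := by
          rw [mem_filter, mem_range]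
          refine ⟨by omega, ?_⟩
          rw [add_assoc, mul_comm, Nat.mul_add_div (by omega), Nat.div_eq_of_lt (by omega),
            add_zero]
        exact single_le_sum (f := fun i => Complex.normSq (r (i + 1)))
          (fun i _ => Complex.normSq_nonneg _) hmem
      have hw := hrec (c * ℓ + t + 1)
      have e1 : c * ℓ + t + 1 + 2 = c * ℓ + (t + 2) + 1 := by ring
      have e2 : c * ℓ + t + 1 + 1 = c * ℓ + (t + 1) + 1 := by ring
      rw [e1] at hw
      rw [hw]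
      have hn1 : ‖((E : ℂ) - (V (1 + ((c * ℓ + t + 1 : ℕ) : ℤ)) : ℂ))‖ ≤ |E| + |B| := by
        rw [← Complex.ofReal_sub, Complex.norm_real, Real.norm_eq_abs]
        calc |E - V (1 + ((c * ℓ + t + 1 : ℕ) : ℤ))| ≤ |E| + |V (1 + ((c * ℓ + t + 1 : ℕ) : ℤ))| :=
              abs_sub _ _
          _ ≤ |E| + |B| := by
              have := hV (1 + ((c * ℓ + t + 1 : ℕ) : ℤ))
              have := le_abs_self B
              linarith
      calc ‖((E : ℂ) - (V (1 + ((c * ℓ + t + 1 : ℕ) : ℤ)) : ℂ)) * w (c * ℓ + t + 1 + 1) -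
            w (c * ℓ + t + 1) + r (c * ℓ + t + 1 + 1)‖
          ≤ ‖((E : ℂ) - (V (1 + ((c * ℓ + t + 1 : ℕ) : ℤ)) : ℂ))‖ * ‖w (c * ℓ + t + 1 + 1)‖ +
            ‖w (c * ℓ + t + 1)‖ + ‖r (c * ℓ + t + 1 + 1)‖ := by
            refine (norm_add_le _ _).trans ?_
            refine add_le_add ((norm_sub_le _ _).trans ?_) le_rfl
            rw [norm_mul]
        _ ≤ (|E| + |B|) * (A ^ (t + 1) * S) + A ^ t * S + S := by
            refine add_le_add (add_le_add ?_ i0) hr
            rw [e2]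
            exact mul_le_mul hn1 i1 (norm_nonneg _) (by positivity)
        _ ≤ A ^ (t + 2) * S := by
            have hp : (1 : ℝ) ≤ A ^ t := one_le_pow₀ (by linarith)
            have hp1 : A ^ t ≤ A ^ (t + 1) := pow_le_pow_right₀ (by linarith) (by omega)
            have e3 : A ^ (t + 2) * S = (|E| + |B|) * (A ^ (t + 1) * S) + A ^ (t + 1) * S
                + A ^ (t + 1) * S := by
              rw [pow_succ A (t + 1)]
              have : A = |E| + |B| + 2 := hA
              linear_combination (A ^ (t + 1) * S) * this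
            rw [e3]
            have a1 : A ^ t * S ≤ A ^ (t + 1) * S := mul_le_mul_of_nonneg_right hp1 hS0
            have a2 : S ≤ A ^ (t + 1) * S := by
              calc S = 1 * S := (one_mul S).symm
                _ ≤ A ^ (t + 1) * S := mul_le_mul_of_nonneg_right (hp.trans hp1) hS0
            linarith

theorem blocks (V : ℤ → ℝ) (E B : ℝ) (hV : ∀ n, |V n| ≤ B) (q ℓ : ℕ) (hℓ : 0 < ℓ) (w r : ℕ → ℂ)
    (hrec : ∀ k : ℕ, w (k + 2) = ((E : ℂ) - (V (1 + k) : ℂ)) * w (k + 1) - w k + r (k + 1))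
    (h1 : ∀ c, c ≤ q / ℓ → w (c * ℓ + 1) = 0) (h2 : ∀ c, c ≤ q / ℓ → w (c * ℓ + 2) = 0) :
    ∑ i ∈ range q, Complex.normSq (w (i + 1)) ≤
      (ℓ * ((|E| + |B| + 2) ^ ℓ) ^ 2) * ∑ i ∈ range q, Complex.normSq (r (i + 1)) := by
  set A := |E| + |B| + 2 with hA
  have hA2 : 2 ≤ A := by
    have := abs_nonneg E; have := abs_nonneg B; linarith
  have step : ∀ i ∈ range q, Complex.normSq (w (i + 1)) ≤
      (A ^ ℓ) ^ 2 * ∑ k ∈ (range q).filter (fun k => k / ℓ = i / ℓ), Complex.normSq (r (k + 1)) := by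
    intro i hi
    rw [mem_range] at hi
    have hc : i / ℓ ≤ q / ℓ := Nat.div_le_div_right hi.le
    have hm : i / ℓ * ℓ + i % ℓ = i := by
      rw [mul_comm]; exact Nat.div_add_mod i ℓ
    have hb := block V E B hV q ℓ w r hrec (i / ℓ) (h1 _ hc) (h2 _ hc) (i % ℓ)
      (Nat.mod_lt _ hℓ) (by rw [hm]; exact hi)
    rw [hm] at hb
    have hnn : 0 ≤ ∑ k ∈ (range q).filter (fun k => k / ℓ = i / ℓ), Complex.normSq (r (k + 1)) :=
      sum_nonneg fun _ _ => Complex.normSq_nonneg _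
    rw [Complex.normSq_eq_norm_sq]
    calc ‖w (i + 1)‖ ^ 2 ≤ (A ^ (i % ℓ) * Real.sqrt (∑ k ∈ (range q).filter
          (fun k => k / ℓ = i / ℓ), Complex.normSq (r (k + 1)))) ^ 2 :=
          pow_le_pow_left₀ (norm_nonneg _) hb 2
      _ = (A ^ (i % ℓ)) ^ 2 * ∑ k ∈ (range q).filter
          (fun k => k / ℓ = i / ℓ), Complex.normSq (r (k + 1)) := by
          rw [mul_pow, Real.sq_sqrt hnn]
      _ ≤ _ := by
          refine mul_le_mul_of_nonneg_right ?_ hnn
          refine pow_le_pow_left₀ (by positivity) ?_ 2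
          exact pow_le_pow_right₀ (by linarith) (Nat.mod_lt _ hℓ).le
  calc ∑ i ∈ range q, Complex.normSq (w (i + 1))
      ≤ ∑ i ∈ range q, (A ^ ℓ) ^ 2 *
          ∑ k ∈ (range q).filter (fun k => k / ℓ = i / ℓ), Complex.normSq (r (k + 1)) :=
        sum_le_sum step
    _ = (A ^ ℓ) ^ 2 * ∑ i ∈ range q, ∑ k ∈ range q,
          if k / ℓ = i / ℓ then Complex.normSq (r (k + 1)) else 0 := by
        rw [mul_sum]
        refine sum_congr rfl fun i _ => ?_
        rw [sum_filter]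
    _ = (A ^ ℓ) ^ 2 * ∑ k ∈ range q, ∑ i ∈ range q,
          if k / ℓ = i / ℓ then Complex.normSq (r (k + 1)) else 0 := by
        rw [sum_comm]
    _ ≤ (A ^ ℓ) ^ 2 * ∑ k ∈ range q, (ℓ : ℝ) * Complex.normSq (r (k + 1)) := by
        refine mul_le_mul_of_nonneg_left (sum_le_sum fun k _ => ?_) (by positivity)
        rw [← sum_filter, sum_const, nsmul_eq_mul]
        refine mul_le_mul_of_nonneg_right ?_ (Complex.normSq_nonneg _)
        have hsub : (range q).filter (fun i => k / ℓ = i / ℓ) ⊆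
            Ico (k / ℓ * ℓ) (k / ℓ * ℓ + ℓ) := by
          intro i hi
          rw [mem_filter] at hi
          rw [mem_Ico, hi.2]
          have hm : i / ℓ * ℓ + i % ℓ = i := by
            rw [mul_comm]; exact Nat.div_add_mod i ℓ
          have := Nat.mod_lt i hℓ
          omega
        have := card_le_card hsub
        rw [Nat.card_Ico] at this
        have h3 : ((range q).filter (fun i => k / ℓ = i / ℓ)).card ≤ ℓ := by omega
        exact_mod_cast h3
    _ = _ := by rw [← mul_sum]; ring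

/-- Few zeros near a point: the counting bound. -/
theorem card_bound (V : ℤ → ℝ) (E B : ℝ) (hV : ∀ n, |V n| ≤ B) (q ℓ : ℕ) (hq : 1 ≤ q)
    (hℓ : 0 < ℓ) (η : ℝ) (hη : 0 < η) (hη1 : (ℓ * ((|E| + |B| + 2) ^ ℓ) ^ 2) * η ^ 2 < 1)
    (Z : Finset ℝ) (hZ : ∀ x ∈ Z, (D V 1 q).eval x = 0 ∧ |x - E| < η) :
    Z.card ≤ 2 * (q / ℓ + 1) := by
  classical
  by_contra hcon
  rw [not_le] at hcon
  have hex : ∀ x : Z, ∃ u : ℕ → ℂ, Bl V q x u := fun x => exists_bl V q x (hZ x x.2).1
  choose U hU using hex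
  let f : (Z → ℂ) →ₗ[ℂ] (Fin 2 × Fin (q / ℓ + 1) → ℂ) :=
    { toFun := fun a p => ∑ x, a x * U x (p.2 * ℓ + 1 + p.1)
      map_add' := fun a b => by
        funext p
        simp only [Pi.add_apply, add_mul, sum_add_distrib]
      map_smul' := fun s a => by
        funext p
        simp only [Pi.smul_apply, smul_eq_mul, RingHom.id_apply, mul_sum, mul_assoc] }
  have hker : LinearMap.ker f ≠ ⊥ := by
    apply LinearMap.ker_ne_bot_of_finrank_lt
    rw [Module.finrank_fintype_fun_eq_card, Module.finrank_fintype_fun_eq_card, Fintype.card_prod,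
      Fintype.card_fin, Fintype.card_fin, Fintype.card_coe]
    exact hcon
  obtain ⟨a, ha, ha0⟩ := Submodule.exists_mem_ne_zero_of_ne_bot hker
  rw [LinearMap.mem_ker] at ha
  set w : ℕ → ℂ := fun k => ∑ x, a x * U x k with hw
  set r : ℕ → ℂ := fun k => ∑ x, (a x * ((x : ℝ) - E : ℂ)) * U x k with hr
  have hfa : ∀ (c : ℕ), c ≤ q / ℓ → ∀ b : Fin 2, w (c * ℓ + 1 + b) = 0 := by
    intro c hc b
    have := congrFun ha (b, ⟨c, by omega⟩)
    exact this
  have hrec : ∀ k : ℕ, w (k + 2) = ((E : ℂ) - (V (1 + k) : ℂ)) * w (k + 1) - w k + r (k + 1) := by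
    intro k
    simp only [hw, hr]
    rw [mul_sum, ← sum_sub_distrib, ← sum_add_distrib]
    refine sum_congr rfl fun x _ => ?_
    rw [(hU x).rc k]
    ring
  have horth : ∀ x y, x ≠ y → ∑ i ∈ range q, conj (U x (i + 1)) * U y (i + 1) = 0 :=
    fun x y hxy => bl_orth (hU x) (hU y) (fun h => hxy (Subtype.ext h))
  have p1 := pyth q U horth a
  have p2 := pyth q U horth (fun x => a x * ((x : ℝ) - E : ℂ))
  have hbl := blocks V E B hV q ℓ hℓ w r hrec
    (fun c hc => by simpa using hfa c hc 0)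
    (fun c hc => by
      have := hfa c hc 1
      rw [show c * ℓ + 2 = c * ℓ + 1 + ((1 : Fin 2) : ℕ) by simp]
      exact this)
  have hpos : 0 < ∑ i ∈ range q, Complex.normSq (w (i + 1)) := by
    simp only [hw]
    rw [p1]
    obtain ⟨x, hx⟩ := Function.ne_iff.mp ha0
    refine sum_pos' (fun y _ => mul_nonneg (Complex.normSq_nonneg _)
      (bl_pos hq (hU y)).le) ⟨x, mem_univ x, ?_⟩
    exact mul_pos (Complex.normSq_pos.mpr hx) (bl_pos hq (hU x))
  have hle : ∑ i ∈ range q, Complex.normSq (r (i + 1)) ≤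
      η ^ 2 * ∑ i ∈ range q, Complex.normSq (w (i + 1)) := by
    simp only [hw, hr]
    rw [p1, p2, mul_sum]
    refine sum_le_sum fun x _ => ?_
    rw [Complex.normSq_mul]
    have h3 : Complex.normSq ((x : ℝ) - E : ℂ) ≤ η ^ 2 := by
      rw [← Complex.ofReal_sub, Complex.normSq_ofReal]
      have h4 := (hZ x x.2).2
      rw [← abs_mul_abs_self, ← sq]
      exact pow_le_pow_left₀ (abs_nonneg _) h4.le 2
    have h5 := (bl_pos hq (hU x)).le
    have h6 := Complex.normSq_nonneg (a x)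
    calc Complex.normSq (a x) * Complex.normSq ((x : ℝ) - E : ℂ) *
          ∑ i ∈ range q, Complex.normSq (U x (i + 1))
        ≤ Complex.normSq (a x) * η ^ 2 * ∑ i ∈ range q, Complex.normSq (U x (i + 1)) :=
          mul_le_mul_of_nonneg_right (mul_le_mul_of_nonneg_left h3 h6) h5
      _ = _ := by ring
  set N := ∑ i ∈ range q, Complex.normSq (w (i + 1)) with hN
  have hfin : N ≤ (ℓ * ((|E| + |B| + 2) ^ ℓ) ^ 2) * η ^ 2 * N := by
    calc N ≤ (ℓ * ((|E| + |B| + 2) ^ ℓ) ^ 2) * ∑ i ∈ range q, Complex.normSq (r (i + 1)) := hbl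
      _ ≤ (ℓ * ((|E| + |B| + 2) ^ ℓ) ^ 2) * (η ^ 2 * N) :=
          mul_le_mul_of_nonneg_left hle (by positivity)
      _ = _ := by ring
  nlinarith

/-- (NA) few zeros of the trace polynomial near a point -/
theorem na : Pool.Agent.W811.Dos.TNa := by
  intro B E ε hε
  obtain ⟨ℓ, hℓ⟩ := exists_nat_gt (4 / ε)
  have h4 : 0 < 4 / ε := by positivity
  have hℓ0 : (0 : ℝ) < ℓ := h4.trans hℓ
  have hℓ1 : 0 < ℓ := by exact_mod_cast hℓ0
  have hℓ2 : (1 : ℝ) ≤ ℓ := by exact_mod_cast hℓ1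
  set A := |E| + |B| + 2 with hA
  have hA2 : 2 ≤ A := by
    have := abs_nonneg E; have := abs_nonneg B; linarith
  have hAl : 0 < A ^ ℓ := by positivity
  set η : ℝ := 1 / (2 * ℓ * A ^ ℓ) with hη
  have hη0 : 0 < η := by positivity
  have hη1 : (ℓ * ((|E| + |B| + 2) ^ ℓ) ^ 2) * η ^ 2 < 1 := by
    rw [← hA, hη]
    have : (ℓ : ℝ) * (A ^ ℓ) ^ 2 * (1 / (2 * ℓ * A ^ ℓ)) ^ 2 = 1 / (4 * ℓ) := by
      field_simp
      ring
    rw [this, div_lt_one (by positivity)]
    linarith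
  obtain ⟨q0, hq0⟩ := exists_nat_gt (4 / ε)
  refine ⟨η, hη0, max 1 q0, fun V hV q hq Z hZ => ?_⟩
  have hq1 : 1 ≤ q := (le_max_left _ _).trans hq
  have hq2 : (4 / ε : ℝ) ≤ q := hq0.le.trans (by exact_mod_cast (le_max_right _ _).trans hq)
  have hc := card_bound V E B hV q ℓ hq1 hℓ1 η hη0 hη1 Z hZ
  have hc2 : (Z.card : ℝ) ≤ 2 * (((q / ℓ : ℕ) : ℝ) + 1) := by exact_mod_cast hc
  have hd : ((q / ℓ : ℕ) : ℝ) ≤ (q : ℝ) / ℓ := Nat.cast_div_le
  have hd2 : (q : ℝ) / ℓ ≤ q * (ε / 4) := by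
    rw [div_eq_mul_inv]
    refine mul_le_mul_of_nonneg_left ?_ (Nat.cast_nonneg _)
    rw [inv_le_comm₀ hℓ0 (by positivity)]
    calc (ε / 4)⁻¹ = 4 / ε := by rw [inv_div]
      _ ≤ ℓ := hℓ.le
  have hd3 : 4 ≤ q * ε := by
    rwa [div_le_iff₀ hε] at hq2
  nlinarith

end Pool.Agent.W335.Dos
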